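import Mathlib
import Pool.Agent.Helper78.LK.Goals

set_option autoImplicit false

namespace Pool.Agent.Helper14.LK

open Pool.Agent.Helper50.KP Pool.Agent.Helper78.LK

theorem gLOW (_hTQ : TQ) (hLIFT : LIFT) (hINVR : INVR) (hCNT : CNT) (hINI : INI) (hKNT : KNT) :
    LOW := by
  intro k j w' hj hl
  obtain ⟨hund, hknot, hcr⟩ := hKNT k
  obtain ⟨T, W', hT, hu', hch⟩ := hLIFT j (w0 k) w' (W0 k) hknot.1 hl hund
  obtain ⟨D, hfr, hg0, hg1, hrun⟩ := hINI k T (hT.trans hj)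
  have hfr' : ∀ x ∈ insert 0 T, D.fr x = true := by
    intro x hx
    rw [hfr]
    simpa using hx
  have hrun' := hINVR D (insert 0 T) (W0 k) W' _ hg0 hfr' hch hrun
  have h1 := hCNT.2.1 D W' [] [] _ hg1 hrun'
  have h2 : nfix D W' = nfix D (W0 k) := by
    clear hrun' h1 hu'
    induction hch with
    | refl => rfl
    | tail _ hs ih => rw [hCNT.2.2 D (insert 0 T) _ _ hfr' hs, ih]
  have c1 := hCNT.1 D (W0 k)
  have c2 := hCNT.1 D W'
  rw [hund, hcr] at c1
  rw [hu'] at c2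
  omega

end Pool.Agent.Helper14.LK
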